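import Pool.Agent.H37Z.FF.Graph

set_option autoImplicit false

/-!
# First-Fit needs `Ω(ω log n)` colours on chordal graphs

Replace every vertex of the binomial tree on `2 ^ m` vertices by a clique with `⌊k / 2⌋` vertices
(adjacent vertices of the tree by completely joined cliques) and add a disjoint clique with `k`
vertices and isolated vertices.
-/

namespace Pool.Agent.Results.MP_4aa424_co.ChordalFirstFit

open H37Z.FF

/-- the graph for given numbers of vertices and clique number -/
lemma exists_graph (k n : ℕ) (hk : 2 ≤ k) (hn : k ≤ n) :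
    ∃ (V : Type) (_ : Fintype V) (G : SimpleGraph V), Fintype.card V = n ∧ IsChordal G ∧
      G.cliqueNum = k ∧ (k : ℝ) / 3 * Real.logb 2 ((n : ℝ) / k) ≤ (chiFF G : ℝ) := by
  have hk0 : (0 : ℝ) < k := by exact_mod_cast (by omega : 0 < k)
  rcases Nat.lt_or_ge n (2 * k) with h | h
  · -- few vertices
    refine ⟨Vx 0 0 k (n - k), inferInstance, Gr 0 0 k (n - k), ?_, chordal _ _ _ _,
      cliqueNum_eq (by omega) (by omega), ?_⟩
    · rw [card_Vx]; omega
    · have h1 : (k : ℝ) ≤ (chiFF (Gr 0 0 k (n - k)) : ℝ) := by exact_mod_cast chiFF_clique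
      have h2 : Real.logb 2 ((n : ℝ) / k) ≤ 1 := by
        have hnk : (n : ℝ) / k ≤ 2 := by
          rw [div_le_iff₀ hk0]
          exact_mod_cast h.le
        have hpos : (0 : ℝ) < (n : ℝ) / k := by
          have : (0 : ℝ) < n := by exact_mod_cast (by omega : 0 < n)
          positivity
        calc Real.logb 2 ((n : ℝ) / k) ≤ Real.logb 2 2 :=
              Real.logb_le_logb_of_le (by norm_num) hpos hnk
          _ = 1 := Real.logb_self_eq_one (by norm_num)
      calc (k : ℝ) / 3 * Real.logb 2 ((n : ℝ) / k) ≤ (k : ℝ) / 3 * 1 :=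
            mul_le_mul_of_nonneg_left h2 (by positivity)
        _ ≤ k := by linarith
        _ ≤ _ := h1
  · -- many vertices
    set s := k / 2 with hs
    have hs1 : 1 ≤ s := by omega
    set m := Nat.log 2 ((n - k) / s) with hm
    have hq : 1 ≤ (n - k) / s := by
      rw [Nat.le_div_iff_mul_le (by omega)]
      omega
    have hm1 : 2 ^ m ≤ (n - k) / s := Nat.pow_log_le_self 2 (by omega)
    have hm2 : (n - k) / s < 2 ^ (m + 1) := Nat.lt_pow_succ_log_self (by norm_num) _
    have hm3 : s * 2 ^ m ≤ n - k := by
      calc s * 2 ^ m ≤ s * ((n - k) / s) := Nat.mul_le_mul_left _ hm1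
        _ ≤ n - k := Nat.mul_div_le _ _
    refine ⟨Vx m s k (n - k - s * 2 ^ m), inferInstance, Gr m s k (n - k - s * 2 ^ m), ?_,
      chordal _ _ _ _, cliqueNum_eq (by omega) (by omega), ?_⟩
    · rw [card_Vx]; omega
    · have h1 : ((m : ℝ) + 1) * s ≤ (chiFF (Gr m s k (n - k - s * 2 ^ m)) : ℝ) := by
        exact_mod_cast chiFF_tree
      refine le_trans ?_ h1
      have hs0 : (0 : ℝ) < s := by exact_mod_cast (by omega : 0 < s)
      have hs3 : (k : ℝ) / 3 ≤ s := by
        rw [div_le_iff₀ (by norm_num)]
        exact_mod_cast (by omega : k ≤ s * 3)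
      have hs2 : (s : ℝ) * 2 ≤ k := by exact_mod_cast (by omega : s * 2 ≤ k)
      have h3 : n - k < s * 2 ^ (m + 1) := by
        have := Nat.lt_mul_of_div_lt hm2 (by omega : 0 < s)
        rw [mul_comm] at this
        linarith
      have h4 : (n : ℝ) - k < s * 2 ^ (m + 1) := by
        have : ((n - k : ℕ) : ℝ) < ((s * 2 ^ (m + 1) : ℕ) : ℝ) := by exact_mod_cast h3
        rw [Nat.cast_sub hn] at this
        push_cast at this
        exact this
      have h5 : (n : ℝ) / k ≤ 2 ^ (m + 1) := by
        rw [div_le_iff₀ hk0]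
        have h6 : (2 : ℝ) * k ≤ n := by exact_mod_cast h
        have h7 : (0 : ℝ) < 2 ^ (m + 1) := by positivity
        have h8 : (s : ℝ) * 2 ^ (m + 1) * 2 ≤ k * 2 ^ (m + 1) := by nlinarith
        linarith
      have hpos : (0 : ℝ) < (n : ℝ) / k := by
        have : (0 : ℝ) < n := by exact_mod_cast (by omega : 0 < n)
        positivity
      have h6 : Real.logb 2 ((n : ℝ) / k) ≤ m + 1 := by
        rw [Real.logb_le_iff_le_rpow (by norm_num) hpos]
        have : (2 : ℝ) ^ ((m : ℝ) + 1) = 2 ^ (m + 1) := by
          have e : (m : ℝ) + 1 = ((m + 1 : ℕ) : ℝ) := by push_cast; ring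
          rw [e, Real.rpow_natCast]
        rw [this]
        exact h5
      have h7 : 0 ≤ Real.logb 2 ((n : ℝ) / k) := by
        apply Real.logb_nonneg (by norm_num)
        rw [le_div_iff₀ hk0]
        have : (k : ℝ) ≤ n := by exact_mod_cast hn
        linarith
      calc (k : ℝ) / 3 * Real.logb 2 ((n : ℝ) / k) ≤ s * Real.logb 2 ((n : ℝ) / k) :=
            mul_le_mul_of_nonneg_right hs3 h7
        _ ≤ s * (m + 1) := mul_le_mul_of_nonneg_left h6 hs0.le
        _ = _ := by ring

/-- **Theorem.** (1) For all `n ≥ k ≥ 2` there is a chordal graph with `n` vertices and clique number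
`k` on which First-Fit uses at least `(k / 3) log₂ (n / k)` colours for some ordering.
(2) Hence there is an absolute constant `c > 0` such that for every `k ≥ 2` and every `n ≥ k ^ 2`
some chordal graph with `n` vertices and clique number `k` has First-Fit chromatic number at least
`c k log n`.
(3) The restriction to `k ≥ 2` is necessary: a finite graph with clique number `1` has First-Fit
chromatic number `1`. -/
theorem result :
    (∀ k n : ℕ, 2 ≤ k → k ≤ n →
      ∃ (V : Type) (_ : Fintype V) (G : SimpleGraph V), Fintype.card V = n ∧ IsChordal G ∧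
        G.cliqueNum = k ∧ (k : ℝ) / 3 * Real.logb 2 ((n : ℝ) / k) ≤ (chiFF G : ℝ)) ∧
    (∃ c : ℝ, 0 < c ∧ ∀ k n : ℕ, 2 ≤ k → k ^ 2 ≤ n →
      ∃ (V : Type) (_ : Fintype V) (G : SimpleGraph V), Fintype.card V = n ∧ IsChordal G ∧
        G.cliqueNum = k ∧ c * (k : ℝ) * Real.log n ≤ (chiFF G : ℝ)) ∧
    (∀ (V : Type) (_ : Fintype V) (G : SimpleGraph V), G.cliqueNum = 1 → chiFF G = 1) := by
  refine ⟨exists_graph, ⟨1 / 6, by norm_num, ?_⟩, ?_⟩
  · intro k n hk hn
    have hkn : k ≤ n := le_trans (by nlinarith) hn
    obtain ⟨V, hV, G, h1, h2, h3, h4⟩ := exists_graph k n hk hkn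
    refine ⟨V, hV, G, h1, h2, h3, le_trans ?_ h4⟩
    have hk0 : (0 : ℝ) < k := by exact_mod_cast (by omega : 0 < k)
    have hn0 : (0 : ℝ) < n := by exact_mod_cast (by omega : 0 < n)
    have hn1 : (1 : ℝ) ≤ n := by exact_mod_cast (by omega : 1 ≤ n)
    have hlog2 : 0 < Real.log 2 := Real.log_pos (by norm_num)
    have hlog2' : Real.log 2 ≤ 1 := by
      have := Real.log_two_lt_d9
      linarith
    have hlogn : 0 ≤ Real.log n := Real.log_nonneg hn1
    have h5 : Real.log k ≤ Real.log n / 2 := by
      have h6 : Real.log ((k : ℝ) ^ 2) ≤ Real.log n :=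
        Real.log_le_log (by positivity) (by exact_mod_cast hn)
      rw [Real.log_pow] at h6
      push_cast at h6
      linarith
    have h6 : Real.log n / 2 ≤ Real.logb 2 ((n : ℝ) / k) := by
      rw [Real.logb, Real.log_div hn0.ne' hk0.ne', le_div_iff₀ hlog2]
      have h7 : Real.log n / 2 * Real.log 2 ≤ Real.log n / 2 * 1 :=
        mul_le_mul_of_nonneg_left hlog2' (by positivity)
      linarith
    calc 1 / 6 * (k : ℝ) * Real.log n = (k : ℝ) / 3 * (Real.log n / 2) := by ring
      _ ≤ _ := mul_le_mul_of_nonneg_left h6 (by positivity)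
  · intro V _ G hG
    classical
    have hno : ∀ u v, ¬ G.Adj u v := by
      intro u v huv
      have h1 : G.IsClique (({u, v} : Finset V) : Set V) := by
        intro x hx y hy hxy
        simp only [Finset.coe_insert, Finset.coe_singleton, Set.mem_insert_iff,
          Set.mem_singleton_iff] at hx hy
        rcases hx with rfl | rfl <;> rcases hy with rfl | rfl
        · exact absurd rfl hxy
        · exact huv
        · exact huv.symm
        · exact absurd rfl hxy
      have h2 := h1.card_le_cliqueNum
      rw [hG, Finset.card_pair huv.ne] at h2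
      omega
    have hne : Nonempty V := by
      by_contra hcon
      rw [not_nonempty_iff] at hcon
      obtain ⟨C, hC⟩ := G.exists_isNClique_cliqueNum
      have h1 := hC.card_eq
      rw [hG] at h1
      obtain ⟨x, -⟩ := Finset.card_pos.1 (by omega : 0 < C.card)
      exact hcon.elim x
    have hone : ∀ r c : V → ℕ, IsFirstFit G r c → Set.range c = {1} := by
      intro r c hc
      have h1 : ∀ v, c v = 1 := by
        intro v
        apply le_antisymm
        · exact (hc v).2 ⟨le_refl _, fun u hu => absurd hu (hno u v)⟩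
        · exact (hc v).1.1
      ext x
      simp only [Set.mem_range, Set.mem_singleton_iff, h1]
      constructor
      · rintro ⟨_, h⟩; exact h.symm
      · intro h; exact ⟨hne.some, h.symm⟩
    have hset : {t | ∃ r c : V → ℕ, Function.Injective r ∧ IsFirstFit G r c ∧
        (Set.range c).ncard = t} = {1} := by
      ext t
      simp only [Set.mem_ofPred_eq, Set.mem_singleton_iff]
      constructor
      · rintro ⟨r, c, -, h2, rfl⟩
        rw [hone r c h2, Set.ncard_singleton]
      · rintro rfl
        have hff : IsFirstFit G (fun v => (Fintype.equivFin V v).val) (fun _ => 1) := by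
          intro v
          refine ⟨⟨le_refl _, fun u hu => absurd hu (hno u v)⟩, fun k hk => hk.1⟩
        refine ⟨_, _, fun u v h => (Fintype.equivFin V).injective (Fin.ext h), hff, ?_⟩
        rw [hone _ _ hff, Set.ncard_singleton]
    unfold chiFF
    rw [hset, csSup_singleton]

end Pool.Agent.Results.MP_4aa424_co.ChordalFirstFit
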